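import Mathlib
import Pool.Agent.N491.CD.Main

/-!
# The cohomological dimension of the category of mixed potentially semistable representations

For every number field `F`, every prime `l` and every class `𝒜` of `l`-adic representations of the
absolute Galois group of `F` which contains zero, is closed under subobjects, quotients and finite direct
sums and contains all representations that are direct sums of `ℚ_l(n)` at all places above `l` (for
example the class of all representations which are potentially semistable at the places above `l`), the
group `Ext ^ 2 (ℚ_l, ℚ_l(2))` in the abelian category of the mixed representations in `𝒜` is not zero. Here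
a representation is mixed if it has a finite increasing filtration with pure graded pieces; the graded
pieces are unramified at almost all places, the representation itself need not be.

The proof: let `α = ∏ (P_i R_i) ^ (l ^ i)` and `β = ∏ Q_i ^ (l ^ i)` be infinite products of prime numbers
which are `1` in the `l`-adic numbers and such that the order of `β` modulo `P_i` is at least
`l ^ (2 i + 1)`. The Kummer classes of `α` and `β` give extensions of `ℚ_l` by `ℚ_l(1)`. If their Yoneda
product were zero, there would be a representation with the graded pieces `ℚ_l`, `ℚ_l(1)`, `ℚ_l(2)`
inducing the two extensions, and the relation between Frobenius and tame inertia at `P_i` would show that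
a matrix coefficient of it takes a value of the norm at least `l ^ (i + 1) / [F : ℚ]`, for all `i`, which
is impossible since the Galois group is compact.
-/

set_option autoImplicit false

universe w

open CategoryTheory Abelian Pool.Agent.N491.CD

namespace Pool.Agent.Results.MP_5968e7_ag.ExtTwoNonzero

theorem result (F : Type) [Field F] [NumberField F] (l : ℕ) [Fact l.Prime]
    (𝒜 : ObjectProperty (Reps F l)) [IsAdmissible 𝒜] [HasExt.{w} (MixedCat 𝒜)] :
    ∃ X Y : MixedCat 𝒜, X.obj = Tate F l 0 ∧ Y.obj = Tate F l 2 ∧ Nontrivial (Ext.{w} X Y 2) :=
  ⟨QQ 𝒜 0, QQ 𝒜 2, rfl, rfl, ⟨⟨_, 0, ext_ne_zero 𝒜⟩⟩⟩

end Pool.Agent.Results.MP_5968e7_ag.ExtTwoNonzero
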